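import Pool.Agent.U259.KR.Prod

/-!
# The Knörr–Robinson conjecture: parity and weak bounds
-/

set_option autoImplicit false

open scoped BigOperators Classical

noncomputable section

namespace Pool.Agent.U259.KR

open Pool.Agent.Y63.KR Pool.Agent.Helper884.IC
open Pool.Agent.Y63.AWC (numDefectZero IsIrreducibleCharacter)
open Pool.Agent.Q90.WR Pool.Agent.Q99.AS

variable {p : ℕ} [hp : Fact p.Prime]

/-- the error term of the Knörr–Robinson conjecture -/
def E (p : ℕ) (G : Type) [Group G] : ℤ :=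
  (numDefectZero p G : ℤ) - alternatingSum p G (fun H => (Nat.card (ConjClasses H) : ℤ))

theorem E_eq (G : Type) [Group G] : E p G = (numDefectZero p G : ℤ) - altK p G := rfl

theorem E_chi2 (G : Type) [Group G] [Finite G] :
    (E p G : ℚ) = chi2 p G - ((Nat.card (ConjClasses G) : ℚ) - (numDefectZero p G : ℚ)) := by
  have hsum := altSum_classes (p := p) (G := G)
  unfold E
  push_cast
  push_cast at hsum
  rw [hsum]
  ring

theorem krc_iff (G : Type) [Group G] [Finite G] : KRC p G ↔ E p G = 0 := by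
  rw [krc_altK, E_eq, sub_eq_zero, eq_comm]

theorem E_wr (hp2 : p ≠ 2) (G : Type) [Group G] [Finite G] :
    2 * E p (Wr G) = - (E p G) * (E p G - (2 * (numDefectZero p G : ℤ) + 3)) := by
  have := Fintype.ofFinite G
  have h1 := altK_wr (G := G) (p := p) hp2
  have h2 := defectZero_wr (G := G) (p := p) hp2
  rw [E_eq, E_eq]
  linear_combination h2 - h1

/-- divisibility by powers of two -/
theorem dvd_iff (hp2 : p ≠ 2) : ∀ (a : ℕ) (G : Type) [Group G] [Finite G],
    (2 : ℤ) ^ a ∣ E p G ↔ ∀ j < a, realChainClasses p (WrN j G) ≡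
      numRealDefectZero p (WrN j G) [MOD 2] := by
  intro a
  induction a with
  | zero =>
    intro G _ _
    simp
  | succ a ih =>
    intro G _ _
    constructor
    · intro h j hj
      rcases j with _ | j
      · rw [parity_iff]
        have h1 : (2 : ℤ) ∣ E p G := (dvd_pow_self 2 (Nat.succ_ne_zero a)).trans h
        rw [E_eq] at h1
        change (2 : ℤ) ∣ altK p G - numDefectZero p G
        rw [← neg_sub]
        exact h1.neg_right
      · have h1 := E_wr (p := p) hp2 G
        have h2 : (2 : ℤ) ^ a ∣ E p (Wr G) := by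
          have h3 : (2 : ℤ) ^ (a + 1) ∣ 2 * E p (Wr G) := by
            rw [h1]
            exact (h.neg_right).mul_right _
          rw [pow_succ, mul_comm] at h3
          exact (mul_dvd_mul_iff_left (by norm_num)).mp h3
        exact (ih (Wr G)).mp h2 j (by omega)
    · intro h
      have h1 := krc_dvd (p := p) hp2 a G fun j hj => (parity_iff p (WrN j G)).mp (h j (by omega))
      rw [E_eq, ← neg_sub]
      exact h1.neg_right

/-! ### weak bounds -/

/-- a class of groups -/
abbrev Cls : Type 1 := (G : Type) → Group G → Prop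

theorem squares (C : Cls) (hsq : ∀ (G : Type) [i : Group G] [Finite G], C G i → C (G × G) inferInstance) :
    ∀ (n : ℕ) (G : Type) [i : Group G] [Finite G], C G i →
      ∃ (H : Type) (j : Group H) (_ : Finite H), C H j ∧
        @altK p H j = altK p G ^ (2 ^ n) ∧ @numDefectZero p H j = numDefectZero p G ^ (2 ^ n) ∧
        Nat.card H = Nat.card G ^ (2 ^ n) := by
  intro n
  induction n with
  | zero =>
    intro G i f h
    exact ⟨G, i, f, h, by simp, by simp, by simp⟩
  | succ n ih =>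
    intro G i f h
    have := Fintype.ofFinite G
    obtain ⟨H, j, f', h1, h2, h3, h4⟩ := ih (G × G) (hsq G h)
    refine ⟨H, j, f', h1, ?_, ?_, ?_⟩
    · rw [h2, altK_prod, ← pow_two, ← pow_mul, pow_succ, mul_comm]
    · rw [h3, dz_prod, ← pow_two, ← pow_mul, pow_succ, mul_comm]
    · rw [h4, Nat.card_prod, ← pow_two, ← pow_mul, pow_succ, mul_comm]

theorem exists_small (g : ℕ) (hg : 0 < g) : ∃ ε : ℝ, 0 < ε ∧ (g : ℝ) ^ ε ≤ 3 / 2 := by
  rcases Nat.eq_or_lt_of_le (Nat.succ_le_of_lt hg) with h | h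
  · refine ⟨1, one_pos, ?_⟩
    have : g = 1 := h.symm
    subst this
    norm_num
  · have h1 : (1 : ℝ) < g := by exact_mod_cast h
    have h2 : 0 < Real.log g := Real.log_pos h1
    refine ⟨Real.log (3 / 2) / Real.log g, div_pos (Real.log_pos (by norm_num)) h2, ?_⟩
    rw [Real.rpow_def_of_pos (by linarith), mul_div_cancel₀ _ h2.ne', Real.exp_log (by norm_num)]

theorem exists_large (c : ℝ) : ∃ n : ℕ, 0 < n ∧ c * (3 / 2 : ℝ) ^ (2 ^ n) < 2 ^ (2 ^ n - 1) := by
  obtain ⟨m, hm⟩ := pow_unbounded_of_one_lt (2 * c) (show (1 : ℝ) < 4 / 3 by norm_num)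
  refine ⟨m + 1, Nat.succ_pos _, ?_⟩
  have h1 : (4 / 3 : ℝ) ^ m ≤ (4 / 3) ^ (2 ^ (m + 1)) :=
    pow_le_pow_right₀ (by norm_num) ((Nat.le_succ m).trans (Nat.lt_two_pow_self).le)
  have h2 : 2 * c < (4 / 3 : ℝ) ^ (2 ^ (m + 1)) := lt_of_lt_of_le hm h1
  have h3 : (2 : ℝ) ^ (2 ^ (m + 1)) = (4 / 3) ^ (2 ^ (m + 1)) * (3 / 2) ^ (2 ^ (m + 1)) := by
    rw [← mul_pow]; norm_num
  have h4 : (2 : ℝ) ^ (2 ^ (m + 1)) = 2 * 2 ^ (2 ^ (m + 1) - 1) := by
    rw [← pow_succ']
    congr 1
    have : 0 < 2 ^ (m + 1) := pow_pos (by norm_num) _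
    omega
  have h5 : (0 : ℝ) < (3 / 2) ^ (2 ^ (m + 1)) := by positivity
  nlinarith [mul_lt_mul_of_pos_right h2 h5]

theorem diff_large {a z : ℤ} {N : ℕ} (hz : 0 ≤ z) (hne : |a| ≠ z) (h2 : 2 ≤ |a| ∨ 2 ≤ z)
    (hN : Even N) (hN0 : 0 < N) : (2 : ℤ) ^ (N - 1) ≤ |a ^ N - z ^ N| := by
  have key : ∀ x y : ℤ, 0 ≤ y → y < x → 2 ≤ x → (2 : ℤ) ^ (N - 1) ≤ x ^ N - y ^ N := by
    intro x y hy hxy hx
    obtain ⟨n, rfl⟩ : ∃ n, N = n + 1 := ⟨N - 1, by omega⟩
    have e1 : x ^ (n + 1) - y ^ (n + 1) ≥ x ^ n := by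
      have e2 : y ^ (n + 1) ≤ y * x ^ n := by
        rw [pow_succ, mul_comm]
        exact mul_le_mul_of_nonneg_left (pow_le_pow_left₀ hy hxy.le n) hy
      have e3 : 0 ≤ x ^ n := pow_nonneg (by linarith) n
      rw [pow_succ x n]
      nlinarith
    rw [Nat.add_sub_cancel]
    exact le_trans (pow_le_pow_left₀ (by norm_num) hx n) e1
  have e0 : a ^ N = |a| ^ N := (hN.pow_abs a).symm
  rw [e0]
  rcases lt_or_gt_of_ne hne with h | h
  · rw [abs_sub_comm]
    refine le_trans (key z |a| (abs_nonneg a) h ?_) (le_abs_self _)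
    rcases h2 with h2 | h2 <;> omega
  · refine le_trans (key |a| z hz h ?_) (le_abs_self _)
    rcases h2 with h2 | h2 <;> omega

/-- a violation is amplified -/
theorem amplify (hp2 : p ≠ 2) (C : Cls)
    (hwr : ∀ (G : Type) [i : Group G] [Finite G], C G i → C (Wr G) inferInstance)
    (hsq : ∀ (G : Type) [i : Group G] [Finite G], C G i → C (G × G) inferInstance)
    (G : Type) [i : Group G] [f : Finite G] (hG : C G i) (hne : altK p G ≠ numDefectZero p G) :
    ∃ (H : Type) (j : Group H) (_ : Finite H), C H j ∧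
      |@altK p H j| ≠ (@numDefectZero p H j : ℤ) ∧
      (2 ≤ |@altK p H j| ∨ 2 ≤ (@numDefectZero p H j : ℤ)) := by
  have wr : ∀ (H : Type) [j : Group H] [Finite H], C H j →
      ∃ (L : Type) (k : Group L) (_ : Finite L), C L k ∧
        2 * @altK p L k = altK p H ^ 2 + 3 * altK p H ∧
        2 * (@numDefectZero p L k : ℤ) = (numDefectZero p H : ℤ) ^ 2 + 3 * numDefectZero p H := by
    intro H _ _ h
    have := Fintype.ofFinite H
    exact ⟨Wr H, inferInstance, inferInstance, hwr H h, altK_wr hp2, defectZero_wr hp2⟩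
  -- first step
  have s1 : ∃ (H : Type) (j : Group H) (_ : Finite H), C H j ∧
      |@altK p H j| ≠ (@numDefectZero p H j : ℤ) := by
    by_cases h : |altK p G| = (numDefectZero p G : ℤ)
    · obtain ⟨L, k, fL, h1, h2, h3⟩ := wr G hG
      refine ⟨L, k, fL, h1, fun h4 => ?_⟩
      have hz : altK p G = - (numDefectZero p G : ℤ) := by
        rcases abs_choice (altK p G) with h5 | h5
        · exact absurd (h5.symm.trans h) hne
        · rw [h5] at h; omega
      rw [hz] at h2 hne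
      have hz0 : (numDefectZero p G : ℤ) ≠ 0 := by
        intro h6
        apply hne
        rw [h6]; norm_num
      rcases abs_choice (@altK p L k) with h5 | h5
      · rw [h5] at h4
        rw [h4, h3] at h2
        apply hz0
        linarith
      · rw [h5] at h4
        have h6 : 2 * (@numDefectZero p L k : ℤ) + 2 * @altK p L k = 0 := by linarith
        rw [h3, h2] at h6
        have h7 : (numDefectZero p G : ℤ) ^ 2 = 0 := by linarith
        exact hz0 (pow_eq_zero_iff (two_ne_zero) |>.mp h7)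
    · exact ⟨G, i, f, hG, h⟩
  obtain ⟨H, j, fH, h1, h2⟩ := s1
  by_cases h3 : 2 ≤ |@altK p H j| ∨ 2 ≤ (@numDefectZero p H j : ℤ)
  · exact ⟨H, j, fH, h1, h2, h3⟩
  push Not at h3
  obtain ⟨h3, h4⟩ := h3
  have hz0 : (0 : ℤ) ≤ (@numDefectZero p H j : ℤ) := Int.natCast_nonneg _
  -- the pair (1, 0)
  have s10 : ∀ (H : Type) [j : Group H] [Finite H], C H j → altK p H = 1 →
      (numDefectZero p H : ℤ) = 0 →
      ∃ (H : Type) (j : Group H) (_ : Finite H), C H j ∧
      |@altK p H j| ≠ (@numDefectZero p H j : ℤ) ∧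
      (2 ≤ |@altK p H j| ∨ 2 ≤ (@numDefectZero p H j : ℤ)) := by
    intro H _ _ h e1 e2
    obtain ⟨L, k, fL, k1, k2, k3⟩ := wr H h
    rw [e1] at k2
    rw [e2] at k3
    have k4 : @altK p L k = 2 := by linarith
    have k5 : (@numDefectZero p L k : ℤ) = 0 := by linarith
    exact ⟨L, k, fL, k1, by rw [k4, k5]; decide, Or.inl (by rw [k4]; decide)⟩
  by_cases e2 : (@numDefectZero p H j : ℤ) = 0
  · rw [e2] at h2
    by_cases e1 : @altK p H j = 1
    · exact s10 H h1 e1 e2
    · have e3 : @altK p H j = -1 := by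
        have h5 : @altK p H j ≠ 0 := fun h => h2 (by rw [h, abs_zero])
        have := abs_lt.mp h3
        omega
      have := Fintype.ofFinite H
      have k1 := altK_prod (p := p) H H
      have k2 := dz_prod (p := p) H H
      rw [e3] at k1
      have e2' : @numDefectZero p H j = 0 := by exact_mod_cast e2
      rw [e2'] at k2
      refine s10 (H × H) (hsq H h1) (by rw [k1]; norm_num) (by rw [k2]; norm_num)
  · have e1 : (@numDefectZero p H j : ℤ) = 1 := by omega
    rw [e1] at h2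
    have e3 : @altK p H j = 0 := by
      have := abs_lt.mp h3
      have h5 : @altK p H j ≠ 1 := fun h => h2 (by rw [h, abs_one])
      have h6 : @altK p H j ≠ -1 := fun h => h2 (by rw [h, abs_neg, abs_one])
      omega
    obtain ⟨L, k, fL, k1, k2, k3⟩ := wr H h1
    rw [e3] at k2
    rw [e1] at k3
    have k4 : @altK p L k = 0 := by linarith
    have k5 : (@numDefectZero p L k : ℤ) = 2 := by linarith
    exact ⟨L, k, fL, k1, by rw [k4, k5]; decide, Or.inr (by rw [k5])⟩

theorem krc_of_bound (hp2 : p ≠ 2) (C : Cls)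
    (hwr : ∀ (G : Type) [i : Group G] [Finite G], C G i → C (Wr G) inferInstance)
    (hsq : ∀ (G : Type) [i : Group G] [Finite G], C G i → C (G × G) inferInstance)
    (h : ∀ ε : ℝ, 0 < ε → ∃ c : ℝ, ∀ (G : Type) [i : Group G] [Finite G], C G i →
      |(E p G : ℝ)| ≤ c * (Nat.card G : ℝ) ^ ε) (G : Type) [i : Group G] [Finite G] (hG : C G i) :
    E p G = 0 := by
  by_contra hE
  have hne : altK p G ≠ numDefectZero p G := by
    intro h
    apply hE
    rw [E_eq, h, sub_self]
  obtain ⟨H, j, fH, h1, h2, h3⟩ := amplify hp2 C hwr hsq G hG hne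
  obtain ⟨ε, hε, hg⟩ := exists_small (Nat.card H) Nat.card_pos
  obtain ⟨c, hc⟩ := h ε hε
  obtain ⟨n, hn0, hn⟩ := exists_large (|c|)
  obtain ⟨L, k, fL, k1, k2, k3, k4⟩ := squares (p := p) C hsq n H h1
  have hev : Even (2 ^ n) := (Nat.even_pow.mpr ⟨even_two, hn0.ne'⟩)
  have h4 := diff_large (Int.natCast_nonneg _) h2 h3 hev (pow_pos (by norm_num) n)
  have h5 := hc L k1
  have h6 : |(@E p L k : ℝ)| = ((|@altK p H j ^ (2 ^ n) - (@numDefectZero p H j : ℤ) ^ (2 ^ n)| : ℤ) : ℝ) := by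
    have h7 : @E p L k = - (@altK p H j ^ (2 ^ n) - (@numDefectZero p H j : ℤ) ^ (2 ^ n)) := by
      rw [E_eq, k2, k3]
      push_cast
      ring
    rw [h7, ← Int.cast_abs, abs_neg]
  rw [h6] at h5
  have h8 : ((2 : ℝ) ^ (2 ^ n - 1)) ≤
      ((|@altK p H j ^ (2 ^ n) - (@numDefectZero p H j : ℤ) ^ (2 ^ n)| : ℤ) : ℝ) := by
    exact_mod_cast h4
  have h9 : (Nat.card L : ℝ) ^ ε ≤ (3 / 2 : ℝ) ^ (2 ^ n) := by
    rw [k4]
    push_cast
    rw [← Real.rpow_natCast, ← Real.rpow_mul (by positivity), mul_comm, Real.rpow_mul (by positivity),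
      Real.rpow_natCast]
    exact pow_le_pow_left₀ (by positivity) hg _
  have h10 : c * (Nat.card L : ℝ) ^ ε ≤ |c| * (3 / 2 : ℝ) ^ (2 ^ n) := by
    calc c * (Nat.card L : ℝ) ^ ε ≤ |c| * (Nat.card L : ℝ) ^ ε :=
          mul_le_mul_of_nonneg_right (le_abs_self c) (by positivity)
      _ ≤ |c| * (3 / 2 : ℝ) ^ (2 ^ n) := mul_le_mul_of_nonneg_left h9 (abs_nonneg c)
  linarith

end Pool.Agent.U259.KR
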