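import Pool.Agent.N22.DD.Cfp
import Pool.Agent.Q90.WR.Bcj
import Pool.Agent.Q99.AS.Char
import Pool.Agent.Q90.WR.Krq

/-!
# The Knörr–Robinson conjecture: direct products
-/

set_option autoImplicit false

open scoped BigOperators Classical

noncomputable section

namespace Pool.Agent.U259.KR

open Pool.Agent.Y63.KR Pool.Agent.Helper884.IC
open Pool.Agent.Y63.AWC (numDefectZero IsIrreducibleCharacter)
open Pool.Agent.Q90.WR Pool.Agent.Q99.AS

variable {p : ℕ} [hp : Fact p.Prime]

theorem card_conjClasses_prod (A B : Type) [Group A] [Group B] :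
    Nat.card (ConjClasses (A × B)) = Nat.card (ConjClasses A) * Nat.card (ConjClasses B) := by
  rw [← Nat.card_prod]
  refine Nat.card_congr ?_
  have key : ∀ (a a' : A) (b b' : B), IsConj (a, b) (a', b') ↔ IsConj a a' ∧ IsConj b b' := by
    intro a a' b b'
    constructor
    · intro h
      obtain ⟨c, hc⟩ := isConj_iff.mp h
      have h1 := congrArg Prod.fst hc
      have h2 := congrArg Prod.snd hc
      exact ⟨isConj_iff.mpr ⟨c.1, h1⟩, isConj_iff.mpr ⟨c.2, h2⟩⟩
    · rintro ⟨h1, h2⟩
      obtain ⟨c, hc⟩ := isConj_iff.mp h1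
      obtain ⟨d, hd⟩ := isConj_iff.mp h2
      exact isConj_iff.mpr ⟨(c, d), Prod.ext hc hd⟩
  refine Equiv.ofBijective (fun c => (Quotient.lift (s := IsConj.setoid (A × B))
    (fun x : A × B => (ConjClasses.mk x.1, ConjClasses.mk x.2)) ?_ c)) ⟨?_, ?_⟩
  · rintro ⟨a, b⟩ ⟨a', b'⟩ h
    obtain ⟨h1, h2⟩ := (key a a' b b').mp h
    exact Prod.ext (ConjClasses.mk_eq_mk_iff_isConj.mpr h1) (ConjClasses.mk_eq_mk_iff_isConj.mpr h2)
  · intro c d
    induction c using Quotient.inductionOn with
    | _ x =>
    induction d using Quotient.inductionOn with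
    | _ y =>
    intro h
    obtain ⟨a, b⟩ := x
    obtain ⟨a', b'⟩ := y
    have h1 : ConjClasses.mk a = ConjClasses.mk a' := congrArg Prod.fst h
    have h2 : ConjClasses.mk b = ConjClasses.mk b' := congrArg Prod.snd h
    exact ConjClasses.mk_eq_mk_iff_isConj.mpr ((key a a' b b').mpr
      ⟨ConjClasses.mk_eq_mk_iff_isConj.mp h1, ConjClasses.mk_eq_mk_iff_isConj.mp h2⟩)
  · rintro ⟨c, d⟩
    induction c using Quotient.inductionOn with
    | _ a =>
    induction d using Quotient.inductionOn with
    | _ b =>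
    exact ⟨ConjClasses.mk (a, b), rfl⟩

theorem card_conjClasses_congr {A B : Type} [Group A] [Group B] (e : A ≃* B) :
    Nat.card (ConjClasses A) = Nat.card (ConjClasses B) := by
  refine Nat.card_congr (Quotient.congr e.toEquiv ?_)
  intro a b
  change IsConj a b ↔ IsConj (e a) (e b)
  constructor
  · intro h
    exact MonoidHom.map_isConj e.toMonoidHom h
  · intro h
    have := MonoidHom.map_isConj e.symm.toMonoidHom h
    simpa using this

theorem altK_prod (G K : Type) [Group G] [Group K] [Fintype G] [Fintype K] :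
    altK p (G × K) = altK p G * altK p K := by
  have hinv : ∀ (A : Type) [Group A], IsoInv (G := A)
      (fun H : Subgroup A => (Nat.card (ConjClasses H) : ℤ)) := by
    intro A _ H L ⟨e⟩
    change (Nat.card (ConjClasses H) : ℤ) = (Nat.card (ConjClasses L) : ℤ)
    rw [card_conjClasses_congr e]
  have h1 := card_mul_alternatingSum (p := p) (G := G × K)
    (fun H => (Nat.card (ConjClasses H) : ℤ)) (hinv _)
  have h2 := card_mul_alternatingSum (p := p) (G := G)
    (fun H => (Nat.card (ConjClasses H) : ℤ)) (hinv _)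
  have h3 := card_mul_alternatingSum (p := p) (G := K)
    (fun H => (Nat.card (ConjClasses H) : ℤ)) (hinv _)
  have h4 := Pool.Agent.N22.DD.functional_prod (p := p) (G := G) (K := K) (R := ℤ)
    (fun H : Subgroup (G × K) => (Nat.card H : ℤ) * (Nat.card (ConjClasses H) : ℤ))
  change (Nat.card (G × K) : ℤ) * altK p (G × K) = _ at h1
  change (Nat.card G : ℤ) * altK p G = _ at h2
  change (Nat.card K : ℤ) * altK p K = _ at h3
  have h5 : ∀ (H : Subgroup G) (L : Subgroup K),
      ((Nat.card (H.prod L) : ℤ) * (Nat.card (ConjClasses (H.prod L)) : ℤ)) =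
      ((Nat.card H : ℤ) * (Nat.card (ConjClasses H) : ℤ)) *
        ((Nat.card L : ℤ) * (Nat.card (ConjClasses L) : ℤ)) := by
    intro H L
    rw [Nat.card_congr (Subgroup.prodEquiv H L).toEquiv, Nat.card_prod,
      card_conjClasses_congr (Subgroup.prodEquiv H L), card_conjClasses_prod]
    push_cast
    ring
  have h6 : (Nat.card (G × K) : ℤ) * altK p (G × K) =
      ((Nat.card G : ℤ) * altK p G) * ((Nat.card K : ℤ) * altK p K) := by
    rw [h1, h2, h3, Finset.sum_mul_sum]
    refine Eq.trans ?_ (Eq.trans h4 ?_)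
    · refine Finset.sum_congr ?_ fun _ _ => rfl
      ext; simp
    · refine Finset.sum_congr (by ext; simp) fun σ _ => Finset.sum_congr (by ext; simp)
        fun τ _ => ?_
      rw [h5]
      ring
  have h0 : (Nat.card (G × K) : ℤ) ≠ 0 := by exact_mod_cast Nat.card_pos.ne'
  apply mul_left_cancel₀ h0
  rw [h6, Nat.card_prod]
  push_cast
  ring

theorem dz_prod (G K : Type) [Group G] [Group K] [Fintype G] [Fintype K] :
    numDefectZero p (G × K) = numDefectZero p G * numDefectZero p K := by
  have h := card_prod (G := G) (H := K) ({()} : Finset Unit) (DefZero p) (fun _ => DefZero p)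
    (fun _ => DefZero p) (fun θ ψ hθ hψ => ?_) (fun _ _ _ _ _ _ _ _ _ _ => rfl)
  · rw [Finset.sum_singleton] at h
    exact h
  · obtain ⟨m, hm0, hm⟩ := deg_pos hθ
    obtain ⟨n, hn0, hn⟩ := deg_pos hψ
    have hmn : ten θ ψ 1 = ((m * n : ℕ) : ℂ) := by
      change θ 1 * ψ 1 = _
      rw [hm, hn]
      push_cast
      ring
    have e1 := fac_le (p := p) hθ hm
    have e2 := fac_le (p := p) hψ hn
    rw [defZero_iff (p := p) hmn, Nat.card_prod, Nat.factorization_mul hm0.ne' hn0.ne',
      Nat.factorization_mul Nat.card_pos.ne' Nat.card_pos.ne']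
    simp only [Finsupp.coe_add, Pi.add_apply, Finset.mem_singleton]
    have e3 : (∃ _ : Unit, True ∧ DefZero p θ ∧ DefZero p ψ) ↔
        m.factorization p = (Nat.card G).factorization p ∧
        n.factorization p = (Nat.card K).factorization p := by
      rw [← defZero_iff (p := p) hm, ← defZero_iff (p := p) hn]
      exact ⟨fun ⟨_, _, h⟩ => h, fun h => ⟨(), trivial, h⟩⟩
    refine Iff.trans ?_ e3.symm
    omega

end Pool.Agent.U259.KR
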